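import Pool.Agent.R481.TraceSS

/-!
# Sums of many exponents and the extreme traces of `C*(ℤ² ⋉ ℤ[1/6])`

Let `G` be the group generated by `x ↦ 2 x`, `x ↦ 3 x`, `x ↦ x + 1` on `ℚ`, a copy of
`ℤ² ⋉ ℤ[1/6]`.  The tracial states of `C*(G)` are the normalised positive definite class functions
on `G`.  The method for measures on the circle on which this rests is due to helper202
(`Pool.Agent.Results.MP_96e181_an.SumsetDecay`).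
-/

set_option autoImplicit false

open Finset
open scoped ComplexOrder

namespace Pool.Agent.Results.MP_81910f_an.SumsOfManyExponents

/-- **Sums of many exponents.**  Let `φ` be an extreme tracial state of `C*(G)` which is not
conditionally finite-dimensional, and call `s` an exponent of `φ` if `φ (h ^ s) = φ (h)` for all
translations `h` (all the `2 ^ i * 3 ^ j` are exponents).  (1) For every translation `g ≠ 1`,
`p ≥ 2` and `θ, ε > 0` there is `r₀` such that for all `r ≥ r₀`, EVERY nonempty finite set `S` of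
exponents with `#{s ∈ S : p s ∈ S} ≥ θ #S` and ALL `x, y ∈ G`, the mean of
`|φ (x g ^ (s_1 + ... + s_r) y)| ^ 2` over the `(s_1, ..., s_r) ∈ S ^ r` is at most `ε`.
(2) If `φ` is not the regular trace then for such `r` and `S` the sum `s_1 + ... + s_r` is an
exponent for at most `ε #S ^ r` of the `(s_1, ..., s_r) ∈ S ^ r`.  (3) In particular, for all
`r ≥ r₀ (g, ε)`, `M ≥ 2`, `N ≥ 1`, `x, y ∈ G`, the mean of `|φ (x g ^ m y)| ^ 2` over all the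
`m = ∑_{k < r} 2 ^ i_k 3 ^ j_k` with `i_k < M`, `j_k < N` is at most `ε`, and (4) if `φ` is not
regular a proportion at most `ε` of these `m` are exponents. -/
theorem result (s2 s3 t : Equiv.Perm ℚ) (hs2 : ∀ x : ℚ, s2 x = 2 * x) (hs3 : ∀ x : ℚ, s3 x = 3 * x)
    (ht : ∀ x : ℚ, t x = x + 1) (G : Subgroup (Equiv.Perm ℚ))
    (hG : G = Subgroup.closure {s2, s3, t}) (φ : G → ℂ)
    (hext : φ ∈ Set.extremePoints ℝ {ψ : G → ℂ | ψ 1 = 1 ∧ (∀ g h : G, ψ (h * g * h⁻¹) = ψ g) ∧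
        ∀ (s : Finset G) (c : G → ℂ), 0 ≤ ∑ i ∈ s, ∑ j ∈ s, star (c j) * c i * ψ (j⁻¹ * i)})
    (hfd : ¬ FiniteDimensional ℂ (Submodule.span ℂ {F : G → ℂ | ∃ n : G,
          (∃ r : ℚ, ∀ x : ℚ, (n : Equiv.Perm ℚ) x = x + r) ∧ F = fun x => φ (n * x)})) :
    (∀ g : G, g ≠ 1 → (∃ r : ℚ, ∀ x : ℚ, (g : Equiv.Perm ℚ) x = x + r) →
      ∀ (p : ℕ) (θ ε : ℝ), 2 ≤ p → 0 < θ → 0 < ε → ∃ r₀ : ℕ, ∀ r, r₀ ≤ r → ∀ S : Finset ℕ,
        S.Nonempty →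
        (∀ s ∈ S, ∀ h : G, (∃ r : ℚ, ∀ x : ℚ, (h : Equiv.Perm ℚ) x = x + r) → φ (h ^ s) = φ h) →
        θ * S.card ≤ (S.filter (fun s => p * s ∈ S)).card → ∀ x y : G,
        ∑ f ∈ Fintype.piFinset (fun _ : Fin r => S), ‖φ (x * g ^ (∑ i, f i) * y)‖ ^ 2 ≤
          ε * (S.card : ℝ) ^ r) ∧
    (φ ≠ Set.indicator ({1} : Set G) (fun _ => (1 : ℂ)) →
      ∀ (p : ℕ) (θ ε : ℝ), 2 ≤ p → 0 < θ → 0 < ε → ∃ r₀ : ℕ, ∀ r, r₀ ≤ r → ∀ S : Finset ℕ,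
        S.Nonempty →
        (∀ s ∈ S, ∀ h : G, (∃ r : ℚ, ∀ x : ℚ, (h : Equiv.Perm ℚ) x = x + r) → φ (h ^ s) = φ h) →
        θ * S.card ≤ (S.filter (fun s => p * s ∈ S)).card →
        ({f : Fin r → ℕ | (∀ i, f i ∈ S) ∧ ∀ h : G, (∃ r : ℚ, ∀ x : ℚ,
          (h : Equiv.Perm ℚ) x = x + r) → φ (h ^ (∑ i, f i)) = φ h}.ncard : ℝ) ≤
            ε * (S.card : ℝ) ^ r) ∧
    (∀ g : G, g ≠ 1 → (∃ r : ℚ, ∀ x : ℚ, (g : Equiv.Perm ℚ) x = x + r) →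
      ∀ ε : ℝ, 0 < ε → ∃ r₀ : ℕ, ∀ r, r₀ ≤ r → ∀ M N : ℕ, 2 ≤ M → 1 ≤ N → ∀ x y : G,
        ∑ f : Fin r → Fin M × Fin N,
          ‖φ (x * g ^ (∑ i, 2 ^ ((f i).1 : ℕ) * 3 ^ ((f i).2 : ℕ)) * y)‖ ^ 2 ≤
            ε * ((M : ℝ) * N) ^ r) ∧
    (φ ≠ Set.indicator ({1} : Set G) (fun _ => (1 : ℂ)) →
      ∀ ε : ℝ, 0 < ε → ∃ r₀ : ℕ, ∀ r, r₀ ≤ r → ∀ M N : ℕ, 2 ≤ M → 1 ≤ N →
        ({f : Fin r → Fin M × Fin N | ∀ h : G, (∃ r : ℚ, ∀ x : ℚ,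
          (h : Equiv.Perm ℚ) x = x + r) →
            φ (h ^ (∑ i, 2 ^ ((f i).1 : ℕ) * 3 ^ ((f i).2 : ℕ))) = φ h}.ncard : ℝ) ≤
              ε * ((M : ℝ) * N) ^ r) :=
  Pool.Agent.R481.TraceSS.main s2 s3 t hs2 hs3 ht G hG φ hext hfd

end Pool.Agent.Results.MP_81910f_an.SumsOfManyExponents
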