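import Pool.Agent.R481.TraceErg

/-!
# Asymptotic multiplicativity of the extreme traces of `C*(ℤ² ⋉ ℤ[1/6])`

Let `G` be the group generated by `x ↦ 2 x`, `x ↦ 3 x`, `x ↦ x + 1` on `ℚ`, a copy of
`ℤ² ⋉ ℤ[1/6]`.  The tracial states of `C*(G)` are the normalised positive definite class functions
on `G` (the set `T`).  The theorem for measures on the circle on which this rests is due to
helper202 (`Pool.Agent.Results.MP_96e181_an.SumsOfTwoPowers`); it needs the ergodicity of the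
measure for the joint action of 2 and 3, which is deduced here from the extremality of the trace.
-/

set_option autoImplicit false

open Finset Filter Topology
open scoped ComplexOrder

namespace Pool.Agent.Results.MP_81910f_an.SumsOfTwoPowers

/-- **Sums of a power of 2 and a power of 3.**  Let `φ` be an extreme tracial state of `C*(G)` which
is not conditionally finite-dimensional, and `S2, S3 ∈ G` the multiplications by 2 and 3.
(1) `φ` is asymptotically multiplicative: for all translations `g, h` the mean over the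
`i < K.1`, `j < K.2` of `φ (S2 ^ i g S2 ^ (-i) · S3 ^ j h S3 ^ (-j))` tends to `φ (g) φ (h)` as both
`K.1` and `K.2` tend to infinity.  (2) If `ψ` is a tracial state and `a, b` are integers such that
`φ (g ^ (a 2 ^ i + b 3 ^ j)) = ψ (g)` for all translations `g`, for a set of `(i, j)` of upper
density one in the boxes, then `ψ (g) = φ (g ^ a) φ (g ^ b)` for all translations `g`.
(3) If `φ (g ^ (2 ^ i + 3 ^ j)) = φ (g)` for all translations `g`, for a set of `(i, j)` of upper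
density one, then `φ` is the regular trace. -/
theorem result (s2 s3 t : Equiv.Perm ℚ) (hs2 : ∀ x : ℚ, s2 x = 2 * x) (hs3 : ∀ x : ℚ, s3 x = 3 * x)
    (ht : ∀ x : ℚ, t x = x + 1) (G : Subgroup (Equiv.Perm ℚ))
    (hG : G = Subgroup.closure {s2, s3, t}) (T : Set (G → ℂ))
    (hT : T = {ψ : G → ℂ | ψ 1 = 1 ∧ (∀ g h : G, ψ (h * g * h⁻¹) = ψ g) ∧
        ∀ (s : Finset G) (c : G → ℂ), 0 ≤ ∑ i ∈ s, ∑ j ∈ s, star (c j) * c i * ψ (j⁻¹ * i)})
    (φ : G → ℂ) (hext : φ ∈ Set.extremePoints ℝ T)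
    (hfd : ¬ FiniteDimensional ℂ (Submodule.span ℂ {F : G → ℂ | ∃ n : G,
          (∃ r : ℚ, ∀ x : ℚ, (n : Equiv.Perm ℚ) x = x + r) ∧ F = fun x => φ (n * x)}))
    (S2 S3 : G) (hS2 : (S2 : Equiv.Perm ℚ) = s2) (hS3 : (S3 : Equiv.Perm ℚ) = s3) :
    (∀ g h : G, (∃ r : ℚ, ∀ x : ℚ, (g : Equiv.Perm ℚ) x = x + r) →
      (∃ r : ℚ, ∀ x : ℚ, (h : Equiv.Perm ℚ) x = x + r) →
      Tendsto (fun K : ℕ × ℕ => (∑ i ∈ Finset.range K.1, ∑ j ∈ Finset.range K.2,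
        φ ((S2 ^ i * g * (S2 ^ i)⁻¹) * (S3 ^ j * h * (S3 ^ j)⁻¹))) / ((K.1 : ℂ) * K.2)) atTop
        (𝓝 (φ g * φ h))) ∧
    (∀ (a b : ℤ) (ψ : G → ℂ), ψ ∈ T →
      (∀ δ : ℝ, 0 < δ → ∃ᶠ K : ℕ × ℕ in atTop,
        ({k : ℕ × ℕ | (¬ ∀ g : G, (∃ r : ℚ, ∀ x : ℚ, (g : Equiv.Perm ℚ) x = x + r) →
          φ (g ^ (a * 2 ^ k.1 + b * 3 ^ k.2)) = ψ g) ∧ k.1 < K.1 ∧ k.2 < K.2}.ncard : ℝ) ≤
            δ * (K.1 * K.2)) →
      ∀ g : G, (∃ r : ℚ, ∀ x : ℚ, (g : Equiv.Perm ℚ) x = x + r) → ψ g = φ (g ^ a) * φ (g ^ b)) ∧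
    ((∀ δ : ℝ, 0 < δ → ∃ᶠ K : ℕ × ℕ in atTop,
        ({k : ℕ × ℕ | (¬ ∀ g : G, (∃ r : ℚ, ∀ x : ℚ, (g : Equiv.Perm ℚ) x = x + r) →
          φ (g ^ (2 ^ k.1 + 3 ^ k.2)) = φ g) ∧ k.1 < K.1 ∧ k.2 < K.2}.ncard : ℝ) ≤
            δ * (K.1 * K.2)) →
      φ = Set.indicator ({1} : Set G) (fun _ => (1 : ℂ))) :=
  Pool.Agent.R481.TraceErg.main s2 s3 t hs2 hs3 ht G hG T hT φ hext hfd S2 S3 hS2 hS3

end Pool.Agent.Results.MP_81910f_an.SumsOfTwoPowers
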