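import Mathlib
import Pool.Agent.R277.FR.Trace

/-!
# The exact set of values of the tracial states of `C*(ℤ² ⋉ ℤ[1/6])` at a translation
-/

set_option autoImplicit false

open scoped ComplexOrder

namespace Pool.Agent.Results.MP_81910f_an.TraceValueRegion

/-- the value given by the periodic orbit of `1 / 431`, `V = 0.16419… + 0.18956… i` -/
noncomputable def V : ℂ :=
  (1 / 43) * ∑ j ∈ Finset.range 43, Complex.exp (2 * Real.pi * Complex.I * 2 ^ j / 431)

/-- the value given by the periodic orbit of `1 / 23` -/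
noncomputable def W : ℂ := (-1 + Real.sqrt 23 * Complex.I) / 22

/-- the closed hexagon with vertices `1`, `V`, `W`, `-1/4`, `conj W`, `conj V` -/
noncomputable def hexagon : Set ℂ :=
  convexHull ℝ {1, V, (starRingEnd ℂ) V, W, (starRingEnd ℂ) W, -1 / 4}

/-- the tracial states: normalised positive definite class functions -/
def TSt (G : Subgroup (Equiv.Perm ℚ)) : Set (G → ℂ) :=
  {ψ : G → ℂ | ψ 1 = 1 ∧ (∀ g h : G, ψ (h * g * h⁻¹) = ψ g) ∧
    ∀ (s : Finset G) (c : G → ℂ), 0 ≤ ∑ i ∈ s, ∑ j ∈ s, star (c j) * c i * ψ (j⁻¹ * i)}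

/-- conditionally finite-dimensional: the translates by the translations span a
finite-dimensional space -/
def CondFinDim {G : Subgroup (Equiv.Perm ℚ)} (φ : G → ℂ) : Prop :=
  FiniteDimensional ℂ (Submodule.span ℂ {F : G → ℂ | ∃ n : G,
    (∃ r : ℚ, ∀ x : ℚ, (n : Equiv.Perm ℚ) x = x + r) ∧ F = fun x => φ (n * x)})

/-- **The exact set of values of the tracial states at a translation.**  Let `G` be the group
generated by `x ↦ 2 x`, `x ↦ 3 x`, `x ↦ x + 1` on `ℚ`, and let `g ≠ 1` be a translation in `G`.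
The set of the values `φ (g)` of all tracial states `φ` is exactly the hexagon; every value in it is
attained by a conditionally finite-dimensional tracial state; and a tracial state which is not
conditionally finite-dimensional has its value at `g` in the interior of the hexagon. -/
theorem result (s2 s3 t : Equiv.Perm ℚ) (h2 : ∀ x : ℚ, s2 x = 2 * x) (h3 : ∀ x : ℚ, s3 x = 3 * x)
    (ht : ∀ x : ℚ, t x = x + 1) (G : Subgroup (Equiv.Perm ℚ))
    (hG : G = Subgroup.closure {s2, s3, t}) (g : G) (hg1 : g ≠ 1)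
    (hg : ∃ r : ℚ, ∀ x : ℚ, (g : Equiv.Perm ℚ) x = x + r) :
    {c : ℂ | ∃ φ ∈ TSt G, φ g = c} = hexagon ∧
    (∀ c ∈ hexagon, ∃ φ ∈ TSt G, CondFinDim φ ∧ φ g = c) ∧
    ∀ φ ∈ TSt G, ¬ CondFinDim φ → φ g ∈ interior hexagon := by
  obtain ⟨a, b⟩ := Pool.Agent.R277.FR.trace_region h2 h3 ht hG hg1 hg
  refine ⟨?_, b, fun φ hφ hn => ?_⟩
  · ext c
    constructor
    · rintro ⟨φ, hφ, rfl⟩
      exact (a φ hφ).1
    · intro hc
      obtain ⟨φ, hφ, -, e⟩ := b c hc
      exact ⟨φ, hφ, e⟩
  · rcases (a φ hφ).2 with h | h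
    · exact h
    · exact absurd h hn

end Pool.Agent.Results.MP_81910f_an.TraceValueRegion
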