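import Pool.Agent.R481.TraceBT

/-!
# Universal sets of multipliers inside sparse sets, for the extreme traces of `C*(ℤ² ⋉ ℤ[1/6])`

Let `G` be the group generated by `x ↦ 2 x`, `x ↦ 3 x`, `x ↦ x + 1` on `ℚ`, a copy of
`ℤ² ⋉ ℤ[1/6]`.  The tracial states of `C*(G)` are the normalised positive definite class functions
`φ` on `G`.  `Pool.Agent.R481.TraceBT.Universal C` says that for every extreme tracial state `φ`

* `φ` is conditionally finite-dimensional, or `φ (x * g ^ c * y) → 0` as `c → ∞` in `C`, for all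
  `x, y ∈ G` and every translation `g ≠ 1` (so the unitaries of the `g ^ c` tend weakly to zero in
  the GNS representation of `φ`);
* `φ` is the regular trace or conditionally finite-dimensional if `φ (g ^ c) = φ (g)` for all
  translations `g` of `G` and all `c` in some infinite subset of `C`.
-/

set_option autoImplicit false

open Finset

namespace Pool.Agent.Results.MP_81910f_an.UniversalSparseMultipliers

/-- **Universal sets inside sparse sets.**  (1) Let `P` be a set of natural numbers with an upper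
bound of Brun–Titchmarsh type: for all `b ≤ N` every residue class modulo `b` contains at most
`K (1 + log b) ^ e F(N) / b` elements of `P` below `N`, where `F ≥ 0` is a function with
`F(M) ≤ L_A F(N)` for `M ≤ A N`, and `F(2) + F(4) + ... + F(2 ^ (i + 1)) ≤ L F(N)` for `2 ^ i ≤ N`
(a nearly regularly growing function; for `F(N) = N` every `P` is allowed, for the primes
`F(N) = N / log N`, for the twin primes `F(N) = N / log² N`).  Then for every `η > 0` there is one
set `C ⊆ P`, missing at most `η F(N)` elements of `P` below `N` for every `N`, which is universal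
for the extreme tracial states of `C*(G)`.  (2) For every `η > 0` there is a universal set of primes
which misses at most the proportion `η` of the primes below `N`, for every `N`. -/
theorem result :
    (∀ (P : Set ℕ) (F : ℕ → ℝ) (K : ℝ) (e : ℕ), (∀ N, 0 ≤ F N) →
      (∀ A : ℕ, ∃ L : ℝ, 0 ≤ L ∧ ∀ N M : ℕ, 1 ≤ N → M ≤ A * N → F M ≤ L * F N) →
      (∃ L : ℝ, 0 ≤ L ∧ ∀ N : ℕ, 1 ≤ N →
        ∑ i ∈ range (Nat.log 2 N + 1), F (2 ^ (i + 1)) ≤ L * F N) →
      0 ≤ K →
      (∀ N b r : ℕ, 1 ≤ b → b ≤ N →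
        (Nat.card {h : ℕ | h < N ∧ h ∈ P ∧ h % b = r} : ℝ) ≤
          K * (1 + Real.log b) ^ e * F N / b) →
      ∀ η : ℝ, 0 < η → ∃ C : Set ℕ, C ⊆ P ∧
        (∀ N : ℕ, (Nat.card {c : ℕ | c < N ∧ c ∈ P ∧ c ∉ C} : ℝ) ≤ η * F N) ∧
        Pool.Agent.R481.TraceBT.Universal C) ∧
    (∀ η : ℝ, 0 < η → ∃ C : Set ℕ, (∀ c ∈ C, c.Prime) ∧
      (∀ N : ℕ, (Nat.card {c : ℕ | c < N ∧ c.Prime ∧ c ∉ C} : ℝ) ≤
        η * Nat.card {c : ℕ | c < N ∧ c.Prime}) ∧
      Pool.Agent.R481.TraceBT.Universal C) :=
  ⟨fun _ _ _ _ h1 h2 h3 hK hP _ hη => Pool.Agent.R481.TraceBT.main_BT ⟨h1, h2, h3⟩ hK hP hη,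
    fun _ hη => Pool.Agent.R481.TraceBT.main_primes hη⟩

end Pool.Agent.Results.MP_81910f_an.UniversalSparseMultipliers
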